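import Mathlib

/-!
# Graphs with many edges and without short cycles (greedy construction)
-/

set_option autoImplicit false

namespace Pool.Agent.Helper396_FFree

open scoped Classical in
/-- the sum of the degrees -/
lemma sum_ncard {n : ℕ} (P : SimpleGraph (Fin n)) :
    ∑ v, (P.neighborSet v).ncard = 2 * P.edgeSet.ncard := by
  have h1 : ∀ v, (P.neighborSet v).ncard = P.degree v := by
    intro v
    rw [Set.ncard_eq_toFinset_card', ← SimpleGraph.card_neighborSet_eq_degree, Set.toFinset_card]
  have h2 : P.edgeSet.ncard = P.edgeFinset.card := by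
    rw [Set.ncard_eq_toFinset_card']
    rfl
  rw [h2, ← SimpleGraph.sum_degrees_eq_twice_card_edges]
  exact Finset.sum_congr rfl fun v _ => h1 v

open scoped Classical in
/-- a forest on `n` vertices has at most `n - 1` edges -/
lemma forest_card {n : ℕ} (hn : 0 < n) (P : SimpleGraph (Fin n)) (hP : P.IsAcyclic) :
    P.edgeSet.ncard + 1 ≤ n := by
  have : Nonempty (Fin n) := ⟨⟨0, hn⟩⟩
  obtain ⟨T, hFT, -, hT⟩ :=
    (SimpleGraph.connected_top (V := Fin n)).exists_isTree_le_of_le_of_isAcyclic le_top hP
  have h1 := hT.card_edgeFinset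
  rw [Fintype.card_fin] at h1
  have h2 := Finset.card_le_card (SimpleGraph.edgeFinset_mono hFT)
  have h3 : P.edgeSet.ncard = P.edgeFinset.card := by
    rw [Set.ncard_eq_toFinset_card']
    rfl
  omega

/-- a graph of minimum degree at least two contains a cycle, of length at most the number of
vertices -/
lemma egirth_le {n : ℕ} (hn : 0 < n) (P : SimpleGraph (Fin n))
    (h : ∀ v, 2 ≤ (P.neighborSet v).ncard) : P.egirth ≤ n := by
  have h1 : ¬ P.IsAcyclic := by
    intro hP
    have h2 := forest_card hn P hP
    have h3 := sum_ncard P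
    have h4 : ∑ _v : Fin n, 2 ≤ ∑ v, (P.neighborSet v).ncard := Finset.sum_le_sum fun v _ => h v
    rw [Finset.sum_const, Finset.card_univ, Fintype.card_fin, smul_eq_mul] at h4
    omega
  obtain ⟨a, w, hw, hlen⟩ := SimpleGraph.exists_egirth_eq_length.2 h1
  rw [hlen]
  have h2 : w.support.tail.length ≤ Fintype.card (Fin n) := hw.support_nodup.length_le_card
  rw [List.length_tail, SimpleGraph.Walk.length_support, Fintype.card_fin] at h2
  exact_mod_cast h2

section general

variable {V : Type*}

/-- cutting a walk at a dart -/
lemma exists_cut {G : SimpleGraph V} {a b : V} (w : G.Walk a b) (d : G.Dart) (hd : d ∈ w.darts) :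
    ∃ (p : G.Walk a d.fst) (q : G.Walk d.snd b),
      w.edges = p.edges ++ d.edge :: q.edges ∧ w.length = p.length + q.length + 1 := by
  induction w with
  | nil => simp at hd
  | @cons a c b h w ih =>
    rw [SimpleGraph.Walk.darts_cons, List.mem_cons] at hd
    rcases hd with rfl | hd
    · exact ⟨SimpleGraph.Walk.nil, w, by simp, by simp⟩
    · obtain ⟨p, q, h1, h2⟩ := ih hd
      refine ⟨SimpleGraph.Walk.cons h p, q, ?_, ?_⟩
      · rw [SimpleGraph.Walk.edges_cons, SimpleGraph.Walk.edges_cons, h1]
        rfl
      · rw [SimpleGraph.Walk.length_cons, SimpleGraph.Walk.length_cons, h2]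
        omega

/-- a closed trail of `G'` which uses an edge outside of `G`, where `G'` is `G` with one
additional edge `uv`, gives a walk of `G` from `u` to `v` -/
lemma walk_of_cycle {G G' : SimpleGraph V} {u v : V}
    (hG' : ∀ x y, G'.Adj x y → G.Adj x y ∨ s(x, y) = s(u, v)) {a : V} (w : G'.Walk a a)
    (hw : w.IsTrail) (he : s(u, v) ∈ w.edges) :
    ∃ p : G.Walk u v, p.length + 1 ≤ w.length := by
  obtain ⟨d, hd, hde⟩ := List.mem_map.1 he
  obtain ⟨p, q, h1, h2⟩ := exists_cut w d hd
  have hn : w.edges.Nodup := hw.edges_nodup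
  rw [h1, List.nodup_append] at hn
  obtain ⟨hn1, hn2, hn3⟩ := hn
  rw [List.nodup_cons] at hn2
  have hde' : d.edge = s(u, v) := hde
  -- the walk from `d.snd` to `d.fst`
  have h3 : ∀ e ∈ (q.append p).edges, e ∈ G.edgeSet := by
    intro e hee
    rw [SimpleGraph.Walk.edges_append, List.mem_append] at hee
    have hne : e ≠ s(u, v) := by
      rintro rfl
      rcases hee with h4 | h4
      · exact hn2.1 (hde' ▸ h4)
      · exact hn3 _ h4 _ (List.mem_cons_self) hde'.symm
    have h5 : e ∈ G'.edgeSet := by
      rcases hee with h4 | h4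
      · exact q.edges_subset_edgeSet h4
      · exact p.edges_subset_edgeSet h4
    induction e using Sym2.ind with
    | _ x y =>
      rw [SimpleGraph.mem_edgeSet] at h5 ⊢
      rcases hG' x y h5 with h6 | h6
      · exact h6
      · exact absurd h6 hne
  have h4 : ((q.append p).transfer G h3).length = q.length + p.length := by
    rw [SimpleGraph.Walk.length_transfer, SimpleGraph.Walk.length_append]
  rcases SimpleGraph.dart_edge_eq_mk'_iff'.1 hde' with ⟨hf, hs⟩ | ⟨hf, hs⟩
  · refine ⟨(((q.append p).transfer G h3).copy hs hf).reverse, ?_⟩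
    rw [SimpleGraph.Walk.length_reverse, SimpleGraph.Walk.length_copy, h4]
    omega
  · refine ⟨((q.append p).transfer G h3).copy hs hf, ?_⟩
    rw [SimpleGraph.Walk.length_copy, h4]
    omega

/-- the ball -/
def Ball (G : SimpleGraph V) (k : ℕ) (u : V) : Set V := {v | ∃ w : G.Walk u v, w.length ≤ k}

lemma ncard_ball [Finite V] (G : SimpleGraph V) (d : ℕ) (hd : ∀ v, (G.neighborSet v).ncard ≤ d)
    (k : ℕ) : ∀ u, (Ball G k u).ncard ≤ (d + 1) ^ k := by
  classical
  cases nonempty_fintype V
  induction k with
  | zero =>
    intro u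
    have : Ball G 0 u ⊆ {u} := by
      rintro v ⟨w, hw⟩
      have h := SimpleGraph.Walk.eq_of_length_eq_zero (Nat.le_zero.1 hw)
      exact h.symm
    have h := Set.ncard_le_ncard this (Set.toFinite _)
    rw [Set.ncard_singleton] at h
    simpa using h
  | succ k ih =>
    intro u
    have h1 : Ball G (k + 1) u ⊆
        {u} ∪ ⋃ x ∈ (G.neighborSet u).toFinset, Ball G k x := by
      rintro v ⟨w, hw⟩
      cases w with
      | nil => exact Or.inl rfl
      | @cons _ x _ h w =>
        right
        rw [SimpleGraph.Walk.length_cons] at hw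
        refine Set.mem_iUnion₂.2 ⟨x, ?_, w, by omega⟩
        rw [Set.mem_toFinset]
        exact h
    have h2 := Set.ncard_le_ncard h1 (Set.toFinite _)
    have h3 : (⋃ x ∈ (G.neighborSet u).toFinset, Ball G k x).ncard ≤
        ∑ x ∈ (G.neighborSet u).toFinset, (Ball G k x).ncard :=
      Finset.set_ncard_biUnion_le _ _
    have h4 : ∑ x ∈ (G.neighborSet u).toFinset, (Ball G k x).ncard ≤ d * (d + 1) ^ k := by
      refine (Finset.sum_le_sum fun x _ => ih x).trans ?_
      rw [Finset.sum_const, smul_eq_mul, ← Set.ncard_eq_toFinset_card']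
      exact Nat.mul_le_mul_right _ (hd u)
    have h5 := Set.ncard_union_le {u} (⋃ x ∈ (G.neighborSet u).toFinset, Ball G k x)
    rw [Set.ncard_singleton] at h5
    have h6 : 1 ≤ (d + 1) ^ k := Nat.one_le_pow _ _ (by omega)
    have h7 : (d + 1) ^ (k + 1) = d * (d + 1) ^ k + (d + 1) ^ k := by ring
    omega

end general

/-- **Greedy construction.** For `2 (d + 1) ^ L ≤ N` and `1 ≤ L` there is a graph on `N` vertices
without cycles of length at most `L` and with at least `d N / 4` edges. -/
theorem exists_dense (L d N : ℕ) (hL : 1 ≤ L) (hN : 2 * (d + 1) ^ L ≤ N) :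
    ∃ T : SimpleGraph (Fin N), (L : ℕ∞) < T.egirth ∧ d * N ≤ 4 * T.edgeSet.ncard := by
  classical
  let P : SimpleGraph (Fin N) → Prop := fun T =>
    (L : ℕ∞) < T.egirth ∧ ∀ v, (T.neighborSet v).ncard ≤ d
  have hP0 : P ⊥ := by
    refine ⟨?_, fun v => ?_⟩
    · rw [SimpleGraph.egirth_bot]
      exact WithTop.coe_lt_top L
    · simp
  obtain ⟨T, -, hT⟩ := (Set.toFinite {T | P T}).exists_le_maximal hP0
  have hTP : P T := hT.1
  refine ⟨T, hTP.1, ?_⟩
  -- two vertices of small degree are close
  have hclose : ∀ u v, (T.neighborSet u).ncard < d → (T.neighborSet v).ncard < d →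
      v ∈ Ball T L u := by
    intro u v hu hv
    by_cases huv : u = v
    · subst huv
      exact ⟨SimpleGraph.Walk.nil, by simp⟩
    by_cases hadj : T.Adj u v
    · exact ⟨SimpleGraph.Walk.cons hadj SimpleGraph.Walk.nil, by simpa using hL⟩
    by_contra hfar
    let T' : SimpleGraph (Fin N) := T ⊔ SimpleGraph.edge u v
    have hadj' : ∀ x y, T'.Adj x y → T.Adj x y ∨ s(x, y) = s(u, v) := by
      intro x y h
      rcases h with h | h
      · exact Or.inl h
      · right
        rw [SimpleGraph.edge_adj] at h
        rcases h.1 with ⟨rfl, rfl⟩ | ⟨rfl, rfl⟩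
        · rfl
        · exact Sym2.eq_swap
    have hT'uv : T'.Adj u v := Or.inr (by
      rw [SimpleGraph.edge_adj]
      exact ⟨Or.inl ⟨rfl, rfl⟩, huv⟩)
    have hP' : P T' := by
      refine ⟨?_, fun x => ?_⟩
      · by_contra hcon
        push Not at hcon
        have hac : ¬ T'.IsAcyclic := by
          intro h
          rw [SimpleGraph.egirth_eq_top.2 h] at hcon
          exact absurd hcon (by simp)
        obtain ⟨a, w, hw, hlen⟩ := SimpleGraph.exists_egirth_eq_length.2 hac
        rw [hlen] at hcon
        have hlen' : w.length ≤ L := by exact_mod_cast hcon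
        by_cases he : s(u, v) ∈ w.edges
        · obtain ⟨p, hp⟩ := walk_of_cycle hadj' w hw.isTrail he
          exact hfar ⟨p, by omega⟩
        · have h3 : ∀ e ∈ w.edges, e ∈ T.edgeSet := by
            intro e hee
            have h5 := w.edges_subset_edgeSet hee
            induction e using Sym2.ind with
            | _ x y =>
              rw [SimpleGraph.mem_edgeSet] at h5 ⊢
              rcases hadj' x y h5 with h6 | h6
              · exact h6
              · exact absurd (h6 ▸ hee) he
          have h4 := (hw.transfer (H := T) h3).egirth_le_length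
          rw [SimpleGraph.Walk.length_transfer] at h4
          have h5 := lt_of_lt_of_le hTP.1 h4
          have h6 : L < w.length := by exact_mod_cast h5
          omega
      · by_cases hxu : x = u
        · subst hxu
          have h1 : T'.neighborSet x ⊆ insert v (T.neighborSet x) := by
            intro y hy
            rcases hadj' x y hy with h2 | h2
            · exact Set.mem_insert_of_mem _ h2
            · rw [Sym2.eq_iff] at h2
              rcases h2 with ⟨-, rfl⟩ | ⟨h3, -⟩
              · exact Set.mem_insert _ _
              · exact absurd h3 huv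
          have h2 := Set.ncard_le_ncard h1 (Set.toFinite _)
          have h3 := Set.ncard_insert_le v (T.neighborSet x)
          omega
        · by_cases hxv : x = v
          · subst hxv
            have h1 : T'.neighborSet x ⊆ insert u (T.neighborSet x) := by
              intro y hy
              rcases hadj' x y hy with h2 | h2
              · exact Set.mem_insert_of_mem _ h2
              · rw [Sym2.eq_iff] at h2
                rcases h2 with ⟨h3, -⟩ | ⟨-, rfl⟩
                · exact absurd h3.symm huv
                · exact Set.mem_insert _ _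
            have h2 := Set.ncard_le_ncard h1 (Set.toFinite _)
            have h3 := Set.ncard_insert_le u (T.neighborSet x)
            omega
          · have h1 : T'.neighborSet x ⊆ T.neighborSet x := by
              intro y hy
              rcases hadj' x y hy with h2 | h2
              · exact h2
              · rw [Sym2.eq_iff] at h2
                rcases h2 with ⟨h3, -⟩ | ⟨h3, -⟩
                · exact absurd h3 hxu
                · exact absurd h3 hxv
            exact (Set.ncard_le_ncard h1 (Set.toFinite _)).trans (hTP.2 x)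
    have h1 : T' ≤ T := hT.2 hP' le_sup_left
    exact hadj (h1 hT'uv)
  -- few vertices of small degree
  have hS : (Finset.univ.filter fun v => (T.neighborSet v).ncard < d).card ≤ (d + 1) ^ L := by
    rcases (Finset.univ.filter fun v => (T.neighborSet v).ncard < d).eq_empty_or_nonempty with h | h
    · rw [h]; simp
    · obtain ⟨u, hu⟩ := h
      have hu' := (Finset.mem_filter.1 hu).2
      have h1 : ((Finset.univ.filter fun v => (T.neighborSet v).ncard < d : Finset (Fin N)) :
          Set (Fin N)) ⊆ Ball T L u := by
        intro v hv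
        exact hclose u v hu' (Finset.mem_filter.1 (Finset.mem_coe.1 hv)).2
      have h2 := Set.ncard_le_ncard h1 (Set.toFinite _)
      rw [Set.ncard_coe_finset] at h2
      exact h2.trans (ncard_ball T d hTP.2 L u)
  -- counting
  have h1 := sum_ncard T
  have h2 : ∑ _v : Fin N, d ≤ ∑ v, (T.neighborSet v).ncard +
      ∑ v ∈ Finset.univ.filter (fun v => (T.neighborSet v).ncard < d), d := by
    rw [Finset.sum_filter, ← Finset.sum_add_distrib]
    refine Finset.sum_le_sum fun v _ => ?_
    split_ifs with h3 <;> omega
  rw [Finset.sum_const, Finset.sum_const, Finset.card_univ, Fintype.card_fin, smul_eq_mul,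
    smul_eq_mul, h1] at h2
  have h3 : (Finset.univ.filter fun v => (T.neighborSet v).ncard < d).card * d ≤
      (d + 1) ^ L * d := Nat.mul_le_mul_right _ hS
  have h4 : 2 * (d + 1) ^ L * d ≤ N * d := Nat.mul_le_mul_right _ hN
  have h5 : 2 * (d + 1) ^ L * d = 2 * ((d + 1) ^ L * d) := by ring
  have h6 : d * N = N * d := mul_comm _ _
  omega

end Pool.Agent.Helper396_FFree
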